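import Pool.Agent.P.MP_16ad8c_co.AG.Defs
import Pool.Agent.P.MP_16ad8c_co.Norming

namespace Pool.Agent.P.MP_16ad8c_co.AG

open Relation

section abstract

variable {V : Type} {r : V → V → Prop} {H : Set (Half V)}

theorem seq_comp {m m' : V → V} (hm : FoldSeq H m) (hm' : FoldSeq H m') : FoldSeq H (m ∘ m') := by
  induction hm with
  | id => exact hm'
  | step hh _ ih => exact ih.step hh

theorem seq_single {h : Half V} (hh : h ∈ H) : FoldSeq H h.fold := FoldSeq.id.step hh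

theorem fold_adj (hs : ∀ x y, r x y → r y x) {h : Half V} (hh : IsFoldH r h) {x y : V}
    (hr : r x y) : r (h.fold x) (h.fold y) := by
  have key : ∀ x y, r x y → h.t x ∈ h.L → h.t y ∉ h.L → h.t y = y := by
    intro x y hr h1 h2
    have := (hh.cut _ h1 _ (hh.aut x y hr)).resolve_left h2
    rw [hh.invol] at this
    exact this.symm
  unfold Half.fold
  split_ifs with h1 h2 h2
  · exact hh.aut x y hr
  · have := hh.aut x y hr
    rwa [key x y hr h1 h2] at this
  · have := hh.aut x y hr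
    rwa [key y x (hs _ _ hr) h2 h1] at this
  · exact hr

variable {p : V → Prop}

/-- restriction of a half to an invariant set -/
def res (h : Half V) (hp : ∀ x, p (h.t x) ↔ p x) : Half (Subtype p) :=
  ⟨h.t.subtypePerm hp, {x | x.1 ∈ h.L}⟩

theorem res_fold {h : Half V} (hh : IsFoldH r h) (hp : ∀ x, p (h.t x) ↔ p x) :
    IsFoldH (fun a b : Subtype p => r a.1 b.1) (res h hp) where
  invol x := Subtype.ext (hh.invol x.1)
  aut x y hr := hh.aut x.1 y.1 hr
  swap x hx := hh.swap x.1 hx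
  cover x hx := hh.cover x.1 fun e => hx (Subtype.ext e)
  cut x hx y hr := (hh.cut x.1 hx y.1 hr).imp id fun e => Subtype.ext e

open Classical in
/-- extension of a half by the identity -/
noncomputable def ext (k : Half (Subtype p)) : Half V :=
  ⟨Equiv.Perm.ofSubtype k.t, Subtype.val '' k.L⟩

theorem ext_t (k : Half (Subtype p)) (x : Subtype p) : (ext k).t x.1 = (k.t x).1 := by
  classical
  exact Equiv.Perm.ofSubtype_apply_coe k.t x

theorem ext_t_out (k : Half (Subtype p)) {x : V} (hx : ¬ p x) : (ext k).t x = x := by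
  classical
  exact Equiv.Perm.ofSubtype_apply_of_not_mem k.t hx

theorem ext_L (k : Half (Subtype p)) (x : Subtype p) : x.1 ∈ (ext k).L ↔ x ∈ k.L :=
  Subtype.val_injective.mem_set_image

theorem ext_L_out (k : Half (Subtype p)) {x : V} (hx : ¬ p x) : x ∉ (ext k).L := by
  rintro ⟨y, -, rfl⟩
  exact hx y.2

theorem ext_fold (hs : ∀ x y, r x y → r y x) (hc : ∀ x y, p x → r x y → p y)
    {k : Half (Subtype p)} (hk : IsFoldH (fun a b : Subtype p => r a.1 b.1) k) :
    IsFoldH r (ext k) where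
  invol x := by
    by_cases hx : p x
    · rw [ext_t k ⟨x, hx⟩, ext_t, hk.invol]
    · rw [ext_t_out k hx, ext_t_out k hx]
  aut x y hr := by
    by_cases hx : p x
    · rw [ext_t k ⟨x, hx⟩, ext_t k ⟨y, hc x y hx hr⟩]
      exact hk.aut _ _ hr
    · rw [ext_t_out k hx, ext_t_out k fun hy => hx (hc y x hy (hs _ _ hr))]
      exact hr
  swap x hx := by
    obtain ⟨y, hy, rfl⟩ := hx
    rw [ext_t, ext_L]
    exact hk.swap y hy
  cover x hx := by
    by_cases hp : p x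
    · rw [ext_t k ⟨x, hp⟩] at hx ⊢
      rw [ext_L, ext_L k ⟨x, hp⟩]
      exact hk.cover _ fun e => hx (by rw [e])
    · exact absurd (ext_t_out k hp) hx
  cut x hx y hr := by
    obtain ⟨z, hz, rfl⟩ := hx
    have hy := hc _ y z.2 hr
    rw [ext_t k ⟨y, hy⟩, ext_L k ⟨y, hy⟩]
    exact (hk.cut z hz ⟨y, hy⟩ hr).imp id fun e => by rw [e]

theorem ext_foldmap (k : Half (Subtype p)) (x : Subtype p) : (ext k).fold x.1 = (k.fold x).1 := by
  unfold Half.fold
  rw [ext_t, ext_L]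
  split_ifs <;> rfl

theorem ext_side {side : V → Bool} {k : Half (Subtype p)}
    (hk : ∀ x : Subtype p, side (k.t x).1 = side x.1) (x : V) : side ((ext k).t x) = side x := by
  by_cases hx : p x
  · rw [ext_t k ⟨x, hx⟩, hk]
  · rw [ext_t_out k hx]

end abstract

variable {V₁ V₂ : Type} [Fintype V₁] [Fintype V₂] {E : Finset (V₁ × V₂)}

/-- the folds, as halves -/
def FH (E : Finset (V₁ × V₂)) : Set (Half (V₁ ⊕ V₂)) := {h | IsFoldPair E h.t h.L}

omit [Fintype V₁] [Fintype V₂] in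
theorem FH.fold {h : Half (V₁ ⊕ V₂)} (hh : h ∈ FH E) : IsFoldH (graph E).Adj h := by
  obtain ⟨⟨⟨_, h2⟩, h3, _⟩, l1, l2, l3⟩ := hh
  refine ⟨fun x => ?_, fun x y h => (h2 x y).2 h, l1, l2, l3⟩
  nth_rewrite 1 [h3]
  simp

omit [Fintype V₁] [Fintype V₂] in
theorem FH.side {h : Half (V₁ ⊕ V₂)} (hh : h ∈ FH E) (x : V₁ ⊕ V₂) :
    (h.t x).isLeft = x.isLeft := hh.1.1.1 x

omit [Fintype V₁] [Fintype V₂] in
theorem mem_FH {h : Half (V₁ ⊕ V₂)} (hh : IsFoldH (graph E).Adj h)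
    (hsd : ∀ x, (h.t x).isLeft = x.isLeft) (hne : h.L.Nonempty) : h ∈ FH E := by
  refine ⟨⟨⟨hsd, hh.aut_iff⟩, hh.inv_eq.symm, fun hc => ?_⟩, hh.swap, hh.cover, hh.cut⟩
  obtain ⟨x, hx⟩ := hne
  have h1 : h.t x ≠ x := hh.notfix hx
  have h2 : h.t (h.t x) ≠ h.t x := by rw [hh.invol]; exact h1.symm
  have h3 := (SimpleGraph.reachable_iff_reflTransGen _ _).1 (hc ⟨x, h1⟩ ⟨h.t x, h2⟩)
  have key : ∀ y : {u | h.t u ≠ u}, ReflTransGen ((graph E).induce {u | h.t u ≠ u}).Adj ⟨x, h1⟩ y →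
      y.1 ∈ h.L := by
    intro y hy
    induction hy with
    | refl => exact hx
    | @tail a b _ hb ih => exact (hh.cut _ ih b.1 hb).resolve_right b.2
  exact hh.swap x hx (key _ h3)

omit [Fintype V₁] [Fintype V₂] in
theorem foldMap_eq {h : Half (V₁ ⊕ V₂)} (hh : h ∈ FH E) : foldMap h.t h.L = h.fold := by
  funext u
  have : u ∈ h.t '' h.L ↔ h.t u ∈ h.L := by
    constructor
    · rintro ⟨v, hv, rfl⟩
      rwa [(FH.fold hh).invol]
    · exact fun hu => ⟨_, hu, (FH.fold hh).invol u⟩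
  unfold foldMap Half.fold
  by_cases hu : h.t u ∈ h.L
  · rw [if_pos hu, if_pos (this.2 hu)]
  · rw [if_neg hu, if_neg fun c => hu (this.1 c)]

omit [Fintype V₁] [Fintype V₂] in
theorem seq_hom {m : V₁ ⊕ V₂ → V₁ ⊕ V₂} (hm : FoldSeq (FH E) m) :
    (∀ x, (m x).isLeft = x.isLeft) ∧ ∀ x y, (graph E).Adj x y → (graph E).Adj (m x) (m y) := by
  induction hm with
  | id => exact ⟨fun _ => rfl, fun _ _ h => h⟩
  | step hh _ ih =>
    refine ⟨fun x => ?_, fun x y h => fold_adj (fun _ _ h => h.symm) (FH.fold hh) (ih.2 x y h)⟩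
    simp only [Function.comp, Half.fold]
    split_ifs
    · rw [FH.side hh, ih.1]
    · exact ih.1 x

omit [Fintype V₁] [Fintype V₂] in
theorem edge_of {m : V₁ ⊕ V₂ → V₁ ⊕ V₂} (h1 : ∀ x, (m x).isLeft = x.isLeft)
    (h2 : ∀ x y, (graph E).Adj x y → (graph E).Adj (m x) (m y)) {e : V₁ × V₂} (he : e ∈ E) :
    ∃ f ∈ E, m (Sum.inl e.1) = Sum.inl f.1 ∧ m (Sum.inr e.2) = Sum.inr f.2 := by
  have a1 := h2 _ _ ((graph_adj E e.1 e.2).2 he)
  have a2 := h1 (Sum.inl e.1)
  have a3 := h1 (Sum.inr e.2)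
  generalize m (Sum.inl e.1) = u at *
  generalize m (Sum.inr e.2) = w at *
  rcases u with u | u
  · rcases w with w | w
    · simp at a3
    · exact ⟨(u, w), (graph_adj E _ _).1 a1, rfl, rfl⟩
  · simp at a2

/-- some composition of folding maps sends all edges to one edge -/
def Collapses (E : Finset (V₁ × V₂)) : Prop :=
  ∃ m, FoldSeq (FH E) m ∧ ∃ e0 ∈ E, ∀ e ∈ E,
    m (Sum.inl e.1) = Sum.inl e0.1 ∧ m (Sum.inr e.2) = Sum.inr e0.2

omit [Fintype V₁] [Fintype V₂] in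
theorem collapses_of (h : CutPercolating E) : Collapses E := by
  obtain ⟨n, S, ⟨e0, he0, h0⟩, hn, hS⟩ := h
  have key : ∀ i ≤ n, ∃ m, FoldSeq (FH E) m ∧ ∀ e ∈ S i,
      m (Sum.inl e.1) = Sum.inl e0.1 ∧ m (Sum.inr e.2) = Sum.inr e0.2 := by
    intro i
    induction i with
    | zero =>
      refine fun _ => ⟨id, FoldSeq.id, fun e he => ?_⟩
      rw [h0] at he
      obtain rfl : e = e0 := he
      exact ⟨rfl, rfl⟩
    | succ i ih =>
      intro hi
      obtain ⟨m, hm, h1⟩ := ih (by omega)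
      obtain ⟨φ, L, h2, h3⟩ := hS i (by omega)
      have h4 : (⟨φ, L⟩ : Half (V₁ ⊕ V₂)) ∈ FH E := h2
      refine ⟨m ∘ (⟨φ, L⟩ : Half (V₁ ⊕ V₂)).fold, seq_comp hm (seq_single h4), fun e he => ?_⟩
      rw [h3] at he
      obtain ⟨-, f, hf, h5, h6⟩ := he
      rw [← foldMap_eq h4]
      simp only [Function.comp, h5, h6]
      exact h1 f hf
  obtain ⟨m, hm, h1⟩ := key n le_rfl
  exact ⟨m, hm, e0, he0, fun e he => h1 e (by rw [hn]; exact he)⟩

omit [Fintype V₁] [Fintype V₂] in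
theorem percolating_of (h : Collapses E) : CutPercolating E := by
  obtain ⟨m, hm, e0, he0, h0⟩ := h
  let R : Set (V₁ × V₂) → Prop := fun T => ∃ (n : ℕ) (S : ℕ → Set (V₁ × V₂)),
    (∃ e ∈ E, S 0 = {e}) ∧ S n = T ∧
    ∀ i < n, ∃ (φ : Equiv.Perm (V₁ ⊕ V₂)) (L : Set (V₁ ⊕ V₂)), IsFoldPair E φ L ∧
      S (i + 1) = {e | e ∈ E ∧ ∃ f ∈ S i,
        foldMap φ L (Sum.inl e.1) = Sum.inl f.1 ∧ foldMap φ L (Sum.inr e.2) = Sum.inr f.2}
  let pre : (V₁ ⊕ V₂ → V₁ ⊕ V₂) → Set (V₁ × V₂) → Set (V₁ × V₂) := fun m T =>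
    {e | e ∈ E ∧ ∃ f ∈ T, m (Sum.inl e.1) = Sum.inl f.1 ∧ m (Sum.inr e.2) = Sum.inr f.2}
  have one : ∀ h ∈ FH E, ∀ T, R T → R (pre h.fold T) := by
    rintro h hh T ⟨n, S, h1, h2, h3⟩
    refine ⟨n + 1, fun i => if i ≤ n then S i else pre h.fold T, ?_, ?_, fun i hi => ?_⟩
    · simpa using h1
    · simp
    · by_cases c : i < n
      · simp only [if_pos (Nat.succ_le_of_lt c), if_pos c.le]
        exact h3 i c
      · obtain rfl : i = n := by omega
        refine ⟨h.t, h.L, hh, ?_⟩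
        simp only [le_refl, if_true, if_neg (Nat.not_succ_le_self i), foldMap_eq hh, h2]
        rfl
  have key : ∀ m, FoldSeq (FH E) m → ∀ T : Set (V₁ × V₂), T ⊆ (E : Set (V₁ × V₂)) → R T →
      R (pre m T) := by
    intro m hm
    induction hm with
    | id =>
      intro T hT hR
      have : pre id T = T := by
        ext e
        constructor
        · rintro ⟨-, f, hf, h1, h2⟩
          have : e = f := Prod.ext (Sum.inl_injective h1) (Sum.inr_injective h2)
          rwa [this]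
        · exact fun he => ⟨hT he, e, he, rfl, rfl⟩
      rwa [this]
    | @step m h hh hm ih =>
      intro T hT hR
      have : pre (h.fold ∘ m) T = pre m (pre h.fold T) := by
        ext e
        constructor
        · rintro ⟨he, f, hf, h1, h2⟩
          obtain ⟨g, hg, h3, h4⟩ := edge_of (seq_hom hm).1 (seq_hom hm).2 he
          exact ⟨he, g, ⟨hg, f, hf, h3 ▸ h1, h4 ▸ h2⟩, h3, h4⟩
        · rintro ⟨he, g, ⟨-, f, hf, h1, h2⟩, h3, h4⟩
          exact ⟨he, f, hf, by rw [Function.comp_apply, h3, h1], by rw [Function.comp_apply, h4, h2]⟩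
      rw [this]
      exact ih _ (fun e he => he.1) (one h hh T hR)
  have := key m hm {e0} (by simpa using he0)
    ⟨0, fun _ => {e0}, ⟨e0, he0, rfl⟩, rfl, fun i hi => absurd hi (Nat.not_lt_zero i)⟩
  have e : pre m {e0} = E := by
    ext e
    exact ⟨fun he => he.1, fun he => ⟨he, e0, rfl, h0 e he⟩⟩
  rw [e] at this
  exact this

end Pool.Agent.P.MP_16ad8c_co.AG
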