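import Pool.Agent.P.MP_16ad8c_co.AG.Norm
import Pool.Agent.P.MP_16ad8c_co.OI.Main
import Pool.Agent.P.MP_16ad8c_co.OI.StepB
import Pool.Agent.P.MP_16ad8c_co.OI.StepB2

namespace Pool.Agent.P.MP_16ad8c_co.AG

open Relation

set_option linter.unusedSectionVars false

variable {V₁ V₂ : Type} [Fintype V₁] [Fintype V₂] {E : Finset (V₁ × V₂)}

/-- the group generated by the folds that keep every component -/
abbrev LG (E : Finset (V₁ × V₂)) : Subgroup (Equiv.Perm (V₁ ⊕ V₂)) :=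
  Subgroup.closure {φ | IsFold E φ ∧ ∀ u, (graph E).Reachable u (φ u)}

/-- edges of one component are related by folds that keep every component -/
def Loc (E : Finset (V₁ × V₂)) : Prop :=
  ∀ e ∈ E, ∀ f ∈ E, (graph E).Reachable (Sum.inl e.1) (Sum.inl f.1) →
    ∃ g ∈ LG E, g (Sum.inl e.1) = Sum.inl f.1 ∧ g (Sum.inr e.2) = Sum.inr f.2

theorem aut_of_mem {g : Equiv.Perm (V₁ ⊕ V₂)} (hg : g ∈ Subgroup.closure {φ | IsAut E φ}) :
    IsAut E g := by
  induction hg using Subgroup.closure_induction with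
  | mem φ h => exact h
  | one => exact ⟨fun _ => rfl, fun _ _ => Iff.rfl⟩
  | mul φ ψ _ _ h1 h2 => exact Aut.mul (r := (graph E).Adj) (side := Sum.isLeft) h1 h2
  | inv φ _ h => exact Aut.inv (r := (graph E).Adj) (side := Sum.isLeft) h

theorem reach_map {g : V₁ ⊕ V₂ → V₁ ⊕ V₂}
    (hg : ∀ x y, (graph E).Adj x y → (graph E).Adj (g x) (g y)) {x y : V₁ ⊕ V₂}
    (h : (graph E).Reachable x y) : (graph E).Reachable (g x) (g y) :=
  h.map (⟨g, fun {a b} hab => hg a b hab⟩ : graph E →g graph E)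

theorem orb_symm' {V : Type} {r : V → V → Prop} {side : V → Bool} {x y : V}
    (h : Orb (All r side) x y) : Orb (All r side) y x := by
  induction h with
  | refl => exact ReflTransGen.refl
  | tail _ hb ih =>
    obtain ⟨u, hu, rfl⟩ := hb
    exact ReflTransGen.head ⟨u, hu, (hu.1.invol _).symm⟩ ih

/-- collapse of one component -/
theorem collapse_comp (hL : Loc E) {e0 : V₁ × V₂} (he0 : e0 ∈ E) :
    ∃ m, FoldSeq (FH E) m ∧ ∀ x y, (graph E).Reachable (Sum.inl e0.1) x →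
      (graph E).Reachable (Sum.inl e0.1) y → x.isLeft = y.isLeft → m x = m y := by
  classical
  set p : V₁ ⊕ V₂ → Prop := fun x => (graph E).Reachable (Sum.inl e0.1) x with hp
  set rC : Subtype p → Subtype p → Prop := fun a b => (graph E).Adj a.1 b.1 with hrC
  set sC : Subtype p → Bool := fun a => a.1.isLeft with hsC
  have hs : ∀ x y, (graph E).Adj x y → (graph E).Adj y x := fun _ _ h => h.symm
  have hsC' : ∀ x y, rC x y → rC y x := fun _ _ h => h.symm
  have hc : ∀ x y, p x → (graph E).Adj x y → p y := fun x y hx h => hx.trans h.reachable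
  have orb : ∀ g ∈ LG E, ∀ x y : Subtype p, y.1 = g x.1 → Orb (All rC sC) x y := by
    have aux : ∀ g ∈ LG E, (∀ u, (graph E).Reachable u (g u)) ∧
        ∀ x y : Subtype p, y.1 = g x.1 → Orb (All rC sC) x y := by
      intro g hg
      induction hg using Subgroup.closure_induction with
      | mem φ hφ =>
        obtain ⟨⟨h1, L, l⟩, h2⟩ := hφ
        refine ⟨h2, fun x y e => ?_⟩
        have h3 : (⟨φ, L⟩ : Half (V₁ ⊕ V₂)) ∈ FH E := ⟨h1, l⟩
        have h4 : ∀ x, p ((⟨φ, L⟩ : Half (V₁ ⊕ V₂)).t x) ↔ p x :=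
          fun x => ⟨fun h => h.trans (h2 x).symm, fun h => h.trans (h2 x)⟩
        have := fold_orb (side := sC) (res_fold (FH.fold h3) h4) (fun x => FH.side h3 x.1) hsC' x
        rwa [show y = (res ⟨φ, L⟩ h4).t x from Subtype.ext e]
      | one => exact ⟨fun u => SimpleGraph.Reachable.refl u, fun x y e => by
          rw [show y = x from Subtype.ext e]
          exact ReflTransGen.refl⟩
      | mul g k _ _ ig ik =>
        refine ⟨fun u => (ik.1 u).trans (ig.1 (k u)), fun x y e => ?_⟩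
        exact (ik.2 x ⟨k x.1, x.2.trans (ik.1 _)⟩ rfl).trans (ig.2 _ y e)
      | inv g _ ig =>
        refine ⟨fun u => ?_, fun x y e => orb_symm' (ig.2 y x (by rw [e]; simp))⟩
        have := ig.1 (g⁻¹ u)
        simpa using this.symm
    exact fun g hg => (aux g hg).2
  have nb : ∀ x, p x → ∃ y, (graph E).Adj x y := by
    intro x hx
    obtain ⟨w⟩ := hx.symm
    cases w with
    | nil => exact ⟨_, (graph_adj E _ _).2 he0⟩
    | cons h _ => exact ⟨_, h⟩
  have nl : ∀ v, p (Sum.inl v) → ∃ w, (v, w) ∈ E := by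
    intro v hv
    obtain ⟨y | y, hy⟩ := nb _ hv
    · exact (graph_side E _ _ hy rfl).elim
    · exact ⟨y, (graph_adj E _ _).1 hy⟩
  have nr : ∀ w, p (Sum.inr w) → ∃ v, (v, w) ∈ E := by
    intro w hw
    obtain ⟨y | y, hy⟩ := nb _ hw
    · exact ⟨y, (graph_adj E _ _).1 hy.symm⟩
    · exact (graph_side E _ _ hy rfl).elim
  have conn0 : ∀ x (hx : p x), ReflTransGen rC ⟨Sum.inl e0.1, SimpleGraph.Reachable.refl _⟩
      ⟨x, hx⟩ := by
    intro x hx
    have h := (SimpleGraph.reachable_iff_reflTransGen _ _).1 hx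
    induction h with
    | refl => exact ReflTransGen.refl
    | @tail a b hab hb ih =>
      exact (ih ((SimpleGraph.reachable_iff_reflTransGen _ _).2 hab)).tail hb
  have rsymm : ∀ x y, ReflTransGen rC x y → ReflTransGen rC y x := by
    intro x y h
    induction h with
    | refl => exact ReflTransGen.refl
    | tail _ hb ih => exact ReflTransGen.head (hsC' _ _ hb) ih
  obtain ⟨mC, hm, hconst⟩ := percolation (r := rC) (side := sC) hsC'
    (fun x y h => graph_side E _ _ h)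
    (fun x y => (rsymm _ _ (conn0 x.1 x.2)).trans (conn0 y.1 y.2)) (by
      rintro ⟨x | x, hx⟩ ⟨y | y, hy⟩ hxy
      · obtain ⟨a, ha⟩ := nl x hx
        obtain ⟨b, hb⟩ := nl y hy
        obtain ⟨g, hg, e, _⟩ := hL _ ha _ hb (hx.symm.trans hy)
        exact orb g hg _ _ e.symm
      · simp [hsC] at hxy
      · simp [hsC] at hxy
      · obtain ⟨a, ha⟩ := nr x hx
        obtain ⟨b, hb⟩ := nr y hy
        obtain ⟨g, hg, _, e⟩ := hL _ ha _ hb ((((graph_adj E _ _).2 ha).reachable.trans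
          (hx.symm.trans hy)).trans ((graph_adj E _ _).2 hb).symm.reachable)
        exact orb g hg _ _ e.symm)
  have lift : ∀ mC, FoldSeq (All rC sC) mC →
      ∃ m, FoldSeq (FH E) m ∧ ∀ x : Subtype p, m x.1 = (mC x).1 := by
    intro mC hm
    induction hm with
    | id => exact ⟨id, FoldSeq.id, fun _ => rfl⟩
    | @step m0 k hk _ ih =>
      obtain ⟨m, hm, e⟩ := ih
      refine ⟨(ext k).fold ∘ m, hm.step (mem_FH (ext_fold hs hc hk.1.toIsFoldH)
        (ext_side (side := Sum.isLeft) hk.2) (hk.1.ne.image _)), fun x => ?_⟩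
      simp only [Function.comp]
      rw [e, ext_foldmap]
  obtain ⟨m, hm', e⟩ := lift mC hm
  exact ⟨m, hm', fun x y hx hy hxy => by
    rw [e ⟨x, hx⟩, e ⟨y, hy⟩, hconst ⟨x, hx⟩ ⟨y, hy⟩ hxy]⟩

/-- the fold that exchanges two components -/
theorem swap_fold {g : Equiv.Perm (V₁ ⊕ V₂)} (hg : IsAut E g) {u : V₁ ⊕ V₂}
    (hu : ¬ (graph E).Reachable (g u) u) :
    ∃ h ∈ FH E, ∀ x, ((graph E).Reachable u x → (graph E).Reachable (g u) (h.fold x)) ∧
      (¬ (graph E).Reachable u x → h.fold x = x) := by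
  classical
  have hg' : IsAut E g⁻¹ := Aut.inv (r := (graph E).Adj) (side := Sum.isLeft) hg
  set A : V₁ ⊕ V₂ → Prop := fun x => (graph E).Reachable u x with hA
  set B : V₁ ⊕ V₂ → Prop := fun x => (graph E).Reachable (g u) x with hB
  have AB : ∀ x, A x → B (g x) := fun x h => reach_map (fun a b => (hg.2 a b).2) h
  have BA : ∀ x, B x → A (g⁻¹ x) := fun x h => by
    simpa using reach_map (fun a b => (hg'.2 a b).2) h
  have dis : ∀ x, A x → ¬ B x := fun x h1 h2 => hu (h2.trans h1.symm)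
  have Ac : ∀ x y, (graph E).Adj x y → (A x ↔ A y) := fun x y h =>
    ⟨fun h1 => h1.trans h.reachable, fun h1 => h1.trans h.symm.reachable⟩
  have Bc : ∀ x y, (graph E).Adj x y → (B x ↔ B y) := fun x y h =>
    ⟨fun h1 => h1.trans h.reachable, fun h1 => h1.trans h.symm.reachable⟩
  let f : V₁ ⊕ V₂ → V₁ ⊕ V₂ := fun x => if A x then g x else if B x then g⁻¹ x else x
  have f1 : ∀ x, A x → f x = g x := fun x h => if_pos h
  have f2 : ∀ x, B x → f x = g⁻¹ x := fun x h => by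
    simp only [f]
    rw [if_neg fun c => dis x c h, if_pos h]
  have f3 : ∀ x, ¬ A x → ¬ B x → f x = x := fun x h1 h2 => by
    simp only [f]
    rw [if_neg h1, if_neg h2]
  have inv : Function.Involutive f := by
    intro x
    by_cases h1 : A x
    · rw [f1 x h1, f2 _ (AB x h1)]; simp
    by_cases h2 : B x
    · rw [f2 x h2, f1 _ (BA x h2)]; simp
    · rw [f3 x h1 h2, f3 x h1 h2]
  have fB : ∀ x, B (f x) ↔ A x := by
    intro x
    by_cases h1 : A x
    · rw [f1 x h1]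
      exact ⟨fun _ => h1, fun _ => AB x h1⟩
    by_cases h2 : B x
    · rw [f2 x h2]
      exact ⟨fun c => absurd c (dis _ (BA x h2)), fun c => absurd c h1⟩
    · rw [f3 x h1 h2]
      exact ⟨fun c => absurd c h2, fun c => absurd c h1⟩
  refine ⟨⟨inv.toPerm, {x | B x}⟩, mem_FH ⟨inv, ?_, ?_, ?_, ?_⟩ ?_
    ⟨g u, SimpleGraph.Reachable.refl _⟩, fun x => ⟨fun h => ?_, fun h => ?_⟩⟩
  · intro x y h
    change (graph E).Adj (f x) (f y)
    by_cases h1 : A x
    · rw [f1 x h1, f1 y ((Ac x y h).1 h1)]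
      exact (hg.2 x y).2 h
    by_cases h2 : B x
    · rw [f2 x h2, f2 y ((Bc x y h).1 h2)]
      exact (hg'.2 x y).2 h
    · rw [f3 x h1 h2, f3 y (fun c => h1 ((Ac x y h).2 c)) (fun c => h2 ((Bc x y h).2 c))]
      exact h
  · intro x hx c
    exact dis x ((fB x).1 c) hx
  · intro x hx
    change f x ≠ x at hx
    change B x ∨ B (f x)
    rw [fB]
    by_contra c
    push Not at c
    exact hx (f3 x c.2 c.1)
  · intro x hx y h
    exact Or.inl ((Bc x y h).1 hx)
  · intro x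
    change (f x).isLeft = x.isLeft
    by_cases h1 : A x
    · rw [f1 x h1, hg.1]
    by_cases h2 : B x
    · rw [f2 x h2, hg'.1]
    · rw [f3 x h1 h2]
  · have : (inv.toPerm : V₁ ⊕ V₂ → V₁ ⊕ V₂) x ∈ {x | B x} := (fB x).2 h
    unfold Half.fold
    rw [if_pos this]
    exact this
  · have : (inv.toPerm : V₁ ⊕ V₂ → V₁ ⊕ V₂) x ∉ {x | B x} := fun c => h ((fB x).1 c)
    unfold Half.fold
    rw [if_neg this]

/-- all components with an edge fold into one -/
theorem gather (hA : EdgeTransitiveUnder E (Subgroup.closure {φ | IsAut E φ})) {e0 : V₁ × V₂}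
    (he0 : e0 ∈ E) : ∃ m, FoldSeq (FH E) m ∧
      ∀ e ∈ E, (graph E).Reachable (Sum.inl e0.1) (m (Sum.inl e.1)) := by
  classical
  have key : ∀ n, ∀ m, FoldSeq (FH E) m →
      (E.filter fun e => ¬ (graph E).Reachable (Sum.inl e0.1) (m (Sum.inl e.1))).card < n →
      ∃ m, FoldSeq (FH E) m ∧ ∀ e ∈ E, (graph E).Reachable (Sum.inl e0.1) (m (Sum.inl e.1)) := by
    intro n
    induction n with
    | zero => intro m _ h; omega
    | succ n ih =>
      intro m hm hn
      by_cases hall : ∀ e ∈ E, (graph E).Reachable (Sum.inl e0.1) (m (Sum.inl e.1))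
      · exact ⟨m, hm, hall⟩
      push Not at hall
      obtain ⟨e, he, hne⟩ := hall
      obtain ⟨f, hf, h1, -⟩ := edge_of (seq_hom hm).1 (seq_hom hm).2 he
      obtain ⟨g, hg, h2, -⟩ := hA f hf e0 he0
      obtain ⟨h, hh, h3⟩ := swap_fold (aut_of_mem hg) (u := Sum.inl f.1) (by rwa [h2, ← h1])
      rw [h2] at h3
      refine ih (h.fold ∘ m) (hm.step hh) (lt_of_lt_of_le (Finset.card_lt_card ⟨?_, fun hsub => ?_⟩)
        (Nat.lt_succ_iff.1 hn))
      · intro a ha
        rw [Finset.mem_filter] at ha ⊢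
        refine ⟨ha.1, fun c => ha.2 ?_⟩
        by_cases c' : (graph E).Reachable (Sum.inl f.1) (m (Sum.inl a.1))
        · exact (h3 _).1 c'
        · rw [Function.comp_apply, (h3 _).2 c']
          exact c
      · have := (Finset.mem_filter.1 (hsub (Finset.mem_filter.2 ⟨he, hne⟩))).2
        exact this ((h3 _).1 (by rw [h1]))
  exact key _ id FoldSeq.id (Nat.lt_succ_self _)

theorem collapses_of_loc (hE : E.Nonempty)
    (hA : EdgeTransitiveUnder E (Subgroup.closure {φ | IsAut E φ})) (hL : Loc E) :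
    Collapses E := by
  obtain ⟨e0, he0⟩ := hE
  obtain ⟨m1, hm1, h1⟩ := gather hA he0
  obtain ⟨m2, hm2, h2⟩ := collapse_comp hL he0
  obtain ⟨e1, he1, k1, k2⟩ := edge_of (seq_hom hm2).1 (seq_hom hm2).2 he0
  refine ⟨m2 ∘ m1, seq_comp hm2 hm1, e1, he1, fun e he => ?_⟩
  obtain ⟨f, hf, l1, l2⟩ := edge_of (seq_hom hm1).1 (seq_hom hm1).2 he
  have r1 := h1 e he
  rw [l1] at r1
  simp only [Function.comp, l1, l2]
  exact ⟨(h2 _ _ r1 (SimpleGraph.Reachable.refl _) rfl).trans k1,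
    (h2 _ _ (r1.trans ((graph_adj E _ _).2 hf).reachable)
      ((graph_adj E _ _).2 he0).reachable rfl).trans k2⟩

open Classical in
/-- the indicator of the orbit of the edge `e` -/
noncomputable def orbL (E : Finset (V₁ × V₂)) (e : V₁ × V₂) (u v : V₁ ⊕ V₂) : Bool :=
  decide (∃ g ∈ LG E,
    (g (Sum.inl e.1) = u ∧ g (Sum.inr e.2) = v) ∨ (g (Sum.inl e.1) = v ∧ g (Sum.inr e.2) = u))

theorem orbL_symm (E : Finset (V₁ × V₂)) (e : V₁ × V₂) (u v : V₁ ⊕ V₂) :
    orbL E e u v = orbL E e v u := by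
  simp only [orbL, decide_eq_decide]
  exact exists_congr fun g => and_congr_right fun _ => or_comm

theorem orbL_self (E : Finset (V₁ × V₂)) (e : V₁ × V₂) :
    orbL E e (Sum.inl e.1) (Sum.inr e.2) = true := by
  simp only [orbL, decide_eq_true_eq]
  exact ⟨1, Subgroup.one_mem _, Or.inl ⟨rfl, rfl⟩⟩

theorem orbL_act (e : V₁ × V₂) {σ : Equiv.Perm (V₁ ⊕ V₂)} (hσ : σ ∈ LG E) (u v : V₁ ⊕ V₂) :
    orbL E e u v = orbL E e (σ u) (σ v) := by
  simp only [orbL, decide_eq_decide]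
  constructor
  · rintro ⟨g, hg, h⟩
    refine ⟨σ * g, Subgroup.mul_mem _ hσ hg, ?_⟩
    simpa using h
  · rintro ⟨g, hg, h⟩
    refine ⟨σ⁻¹ * g, Subgroup.mul_mem _ (Subgroup.inv_mem _ hσ) hg, ?_⟩
    simpa [Equiv.symm_apply_eq] using h

theorem of_orbL {e f : V₁ × V₂} (h : orbL E e (Sum.inl f.1) (Sum.inr f.2) = true) :
    ∃ g ∈ LG E, g (Sum.inl e.1) = Sum.inl f.1 ∧ g (Sum.inr e.2) = Sum.inr f.2 := by
  simp only [orbL, decide_eq_true_eq] at h
  obtain ⟨g, hg, h | h⟩ := h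
  · exact ⟨g, hg, h⟩
  · have := OI.side_of_mem (Subgroup.closure_mono (fun φ hφ => hφ.1) hg) (Sum.inl e.1)
    rw [h.1] at this
    simp at this

/-- a fold with a fixed vertex agrees on its component with a fold keeping every component -/
theorem localise {σ : Equiv.Perm (V₁ ⊕ V₂)} (hσ : IsFold E σ) {a b : V₁ ⊕ V₂} (ha : σ a = a)
    (hab : (graph E).Adj a b) (hb : σ b ≠ b) : ∃ τ ∈ LG E, τ a = a ∧ τ b = σ b := by
  obtain ⟨h1, L, l⟩ := hσ
  have h3 : (⟨σ, L⟩ : Half (V₁ ⊕ V₂)) ∈ FH E := ⟨h1, l⟩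
  have hf := FH.fold h3
  set p : V₁ ⊕ V₂ → Prop := fun x => (graph E).Reachable a x with hp
  have hp1 : ∀ x, p x → p (σ x) := fun x h => by
    have := reach_map hf.aut h
    rwa [show (⟨σ, L⟩ : Half (V₁ ⊕ V₂)).t a = a from ha] at this
  have h4 : ∀ x, p ((⟨σ, L⟩ : Half (V₁ ⊕ V₂)).t x) ↔ p x :=
    fun x => ⟨fun h => by
      have := hp1 _ h
      rwa [show σ ((⟨σ, L⟩ : Half (V₁ ⊕ V₂)).t x) = x from hf.invol x] at this, hp1 x⟩
  have pa : p a := SimpleGraph.Reachable.refl a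
  have pb : p b := hab.reachable
  have h5 : ext (res ⟨σ, L⟩ h4) ∈ FH E := by
    refine mem_FH (ext_fold (fun _ _ h => h.symm) (fun x y hx h => hx.trans h.reachable)
      (res_fold hf h4)) (ext_side (side := Sum.isLeft) fun x => FH.side h3 x.1) ?_
    rcases hf.cover b hb with c | c
    · exact ⟨b, ⟨b, pb⟩, c, rfl⟩
    · exact ⟨σ b, ⟨σ b, hp1 b pb⟩, c, rfl⟩
  refine ⟨(ext (res ⟨σ, L⟩ h4)).t, Subgroup.subset_closure ⟨⟨h5.1, _, h5.2⟩, fun u => ?_⟩, ?_, ?_⟩
  · by_cases hu : p u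
    · rw [ext_t _ ⟨u, hu⟩]
      exact hu.symm.trans (hp1 u hu)
    · rw [ext_t_out _ hu]
  · rw [ext_t _ ⟨a, pa⟩]
    exact ha
  · rw [ext_t _ ⟨b, pb⟩]
    rfl

theorem loc_of_tri [DecidableEq V₁] [DecidableEq V₂] (h : Tri E) : Loc E := by
  classical
  intro e he f hf hr
  refine of_orbL ?_
  by_cases H : ∃ a b b', (graph E).Adj a b ∧ (graph E).Adj a b' ∧ orbL E e a b ≠ orbL E e a b'
  · obtain ⟨σ, a, b1, b2, h1, h5, -, h2, h3, h4⟩ := OI.comb (OI.side_ne E)
      (OI.stepB _ (graph E) Sum.isLeft (orbL E e) (OI.side_ne E) (orbL_symm E e)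
        (OI.maxIneq h ⟨e, he⟩ _)) H
    obtain ⟨τ, hτ, k1, k2⟩ := localise h1 h3 h5 (fun c => h2 (by rw [← h4, c]))
    exact absurd (by rw [orbL_act e hτ a b1, k1, k2, h4]) h2
  · push Not at H
    have key : ∀ z, Relation.ReflTransGen (graph E).Adj (Sum.inl e.1) z →
        ∀ x, (graph E).Adj z x → orbL E e z x = true := by
      intro z hz
      induction hz with
      | refl =>
        intro x hx
        rw [H _ x _ hx ((graph_adj E _ _).2 he), orbL_self]
      | tail _ hadj ih =>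
        intro x hx
        rw [H _ x _ hx hadj.symm, orbL_symm, ih _ hadj]
    exact key _ ((SimpleGraph.reachable_iff_reflTransGen _ _).1 hr) _ ((graph_adj E _ _).2 hf)

theorem aut_of_tri [DecidableEq V₁] [DecidableEq V₂] (h : Tri E) :
    EdgeTransitiveUnder E (Subgroup.closure {φ | IsAut E φ}) := by
  intro e he f hf
  obtain ⟨g, hg, h2⟩ := OI.onlyIf_of OI.stepB2 h e he f hf
  exact ⟨g, Subgroup.closure_mono (fun φ hφ => hφ.1.1) hg, h2⟩

end Pool.Agent.P.MP_16ad8c_co.AG
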