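import Pool.Agent.P.MP_16ad8c_co.DefsFold

namespace Pool.Agent.P.MP_16ad8c_co.AG

variable {V₁ V₂ : Type} [Fintype V₁] [Fintype V₂]

/-- `(φ, L)` is a fold: `φ` is a cut-involution, `(L, Fix φ, φ L)` is a partition of the vertices
and `L` is a union of components of `G - Fix φ`. -/
def IsFoldPair (E : Finset (V₁ × V₂)) (φ : Equiv.Perm (V₁ ⊕ V₂)) (L : Set (V₁ ⊕ V₂)) : Prop :=
  IsCutInvolution E φ ∧ (∀ u ∈ L, φ u ∉ L) ∧ (∀ u, φ u ≠ u → u ∈ L ∨ φ u ∈ L) ∧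
    ∀ u ∈ L, ∀ v, (graph E).Adj u v → v ∈ L ∨ φ v = v

open Classical in
/-- The folding map of `(φ, L)`: it is `φ` on `φ L` and the identity elsewhere. -/
noncomputable def foldMap (φ : Equiv.Perm (V₁ ⊕ V₂)) (L : Set (V₁ ⊕ V₂)) (u : V₁ ⊕ V₂) :
    V₁ ⊕ V₂ :=
  if u ∈ φ '' L then φ u else u

/-- There is a cut-percolating sequence: edge sets `S 0, ..., S n` with `S 0` a single edge,
`S n = E`, and each `S (i + 1)` the preimage of `S i` under the folding map of a fold. -/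
def CutPercolating (E : Finset (V₁ × V₂)) : Prop :=
  ∃ (n : ℕ) (S : ℕ → Set (V₁ × V₂)), (∃ e ∈ E, S 0 = {e}) ∧ S n = E ∧
    ∀ i < n, ∃ (φ : Equiv.Perm (V₁ ⊕ V₂)) (L : Set (V₁ ⊕ V₂)), IsFoldPair E φ L ∧
      S (i + 1) = {e | e ∈ E ∧ ∃ f ∈ S i,
        foldMap φ L (Sum.inl e.1) = Sum.inl f.1 ∧ foldMap φ L (Sum.inr e.2) = Sum.inr f.2}

end Pool.Agent.P.MP_16ad8c_co.AG
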