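import Pool.Agent.P.MP_16ad8c_co.AG.Basic
import Pool.Agent.P.MP_16ad8c_co.FanoGraph

namespace Pool.Agent.P.MP_16ad8c_co.AG

open Finset

set_option linter.unusedSectionVars false

variable {V₁ V₂ : Type} [Fintype V₁] [Fintype V₂] [DecidableEq V₁] [DecidableEq V₂]

def eL : V₁ × V₂ ↪ (V₁ ⊕ V₁) × (V₂ ⊕ V₂) :=
  ⟨fun e => (Sum.inl e.1, Sum.inl e.2), fun a b h => by
    simp only [Prod.mk.injEq, Sum.inl.injEq] at h
    exact Prod.ext h.1 h.2⟩

def eR : V₁ × V₂ ↪ (V₁ ⊕ V₁) × (V₂ ⊕ V₂) :=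
  ⟨fun e => (Sum.inr e.1, Sum.inr e.2), fun a b h => by
    simp only [Prod.mk.injEq, Sum.inr.injEq] at h
    exact Prod.ext h.1 h.2⟩

theorem eL_apply (e : V₁ × V₂) : eL e = (Sum.inl e.1, Sum.inl e.2) := rfl

theorem eR_apply (e : V₁ × V₂) : eR e = (Sum.inr e.1, Sum.inr e.2) := rfl

/-- two disjoint copies -/
def dbl (E : Finset (V₁ × V₂)) : Finset ((V₁ ⊕ V₁) × (V₂ ⊕ V₂)) := E.map eL ∪ E.map eR

theorem dbl_disj (E : Finset (V₁ × V₂)) : Disjoint (E.map eL) (E.map eR) := by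
  rw [Finset.disjoint_left]
  intro a ha hb
  obtain ⟨x, -, rfl⟩ := Finset.mem_map.1 ha
  obtain ⟨y, -, h⟩ := Finset.mem_map.1 hb
  simp [eL_apply, eR_apply] at h

theorem prod_dbl (E : Finset (V₁ × V₂)) (F : (V₁ ⊕ V₁) × (V₂ ⊕ V₂) → ℝ) :
    ∏ e ∈ dbl E, F e = (∏ e ∈ E, F (eL e)) * ∏ e ∈ E, F (eR e) := by
  rw [dbl, Finset.prod_union (dbl_disj E), Finset.prod_map, Finset.prod_map]

theorem card_dbl (E : Finset (V₁ × V₂)) : (dbl E).card = E.card * 2 := by
  rw [dbl, Finset.card_union_of_disjoint (dbl_disj E), Finset.card_map, Finset.card_map]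
  ring

theorem T_dbl (E : Finset (V₁ × V₂)) {α β : Type} [Fintype α] [Fintype β]
    (f : (V₁ ⊕ V₁) × (V₂ ⊕ V₂) → α → β → ℝ) :
    T (dbl E) f = T E (fun e => f (eL e)) * T E (fun e => f (eR e)) := by
  unfold T
  rw [div_mul_div_comm]
  congr 1
  · rw [← (Equiv.sumArrowEquivProdArrow V₁ V₁ α).symm.sum_comp, Fintype.sum_prod_type,
      Finset.sum_mul_sum]
    refine Finset.sum_congr rfl fun x _ => Finset.sum_congr rfl fun x' _ => ?_
    rw [← (Equiv.sumArrowEquivProdArrow V₂ V₂ β).symm.sum_comp, Fintype.sum_prod_type,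
      Finset.sum_mul_sum]
    refine Finset.sum_congr rfl fun y _ => Finset.sum_congr rfl fun y' _ => ?_
    rw [prod_dbl]
    rfl
  · simp only [Fintype.card_sum, pow_add]
    ring

theorem not_tri_dbl : ¬ Tri (dbl fano) := by
  intro h
  have hE : (dbl fano).Nonempty := Finset.card_pos.1 (by rw [card_dbl, fano_card]; norm_num)
  have h0 := T_fano (fun _ => 0)
  have h1 := T_fano (fun _ => 1)
  have h2 := T_fano (fun _ => 2)
  have hc := T_fano col
  rw [val_0] at h0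
  rw [val_1] at h1
  rw [val_2] at h2
  rw [val_col] at hc
  have pos : ∀ i : Fin 3, 0 < T fano (fun _ a s => (mat i a s : ℝ)) := by
    intro i
    fin_cases i
    · exact h0 ▸ (by norm_num)
    · exact h1 ▸ (by norm_num)
    · exact h2 ▸ (by norm_num)
  have key := holder_pow h hE (fun e => col (e.1.elim id id, e.2.elim id id))
    (fun i a s => (mat i a s : ℝ)) (fun _ _ _ => by positivity)
    (fun i => by
      rw [T_dbl]
      exact mul_pos (pos i) (pos i))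
  rw [prod_dbl, T_dbl, card_dbl] at key
  simp only [T_dbl, Finset.prod_mul_distrib] at key
  set a := T fano (fun e a s => (mat (col e) a s : ℝ)) with ha
  set b := ∏ e ∈ fano, T fano (fun _ a s => (mat (col e) a s : ℝ)) with hb
  change (a * a) ^ (fano.card * 2) ≤ b * b * (b * b) at key
  have k2 : (a ^ fano.card) ^ 4 ≤ b ^ 4 := by
    calc (a ^ fano.card) ^ 4 = (a * a) ^ (fano.card * 2) := by ring
      _ ≤ _ := key
      _ = _ := by ring
  have k3 : a ^ fano.card ≤ b :=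
    le_of_pow_le_pow_left₀ (by norm_num) (Finset.prod_nonneg fun e _ => (pos _).le) k2
  rw [hb, prod_col (fun i => T fano (fun _ a s => (mat i a s : ℝ))), fano_card, hc, h0, h1,
    h2] at k3
  revert k3
  norm_num

def emb (i : Bool) : V₁ ⊕ V₂ → (V₁ ⊕ V₁) ⊕ (V₂ ⊕ V₂) :=
  Sum.map (fun a => if i then Sum.inl a else Sum.inr a) (fun a => if i then Sum.inl a else Sum.inr a)

def cp : (V₁ ⊕ V₁) ⊕ (V₂ ⊕ V₂) → Bool := Sum.elim Sum.isLeft Sum.isLeft

def pr : (V₁ ⊕ V₁) ⊕ (V₂ ⊕ V₂) → V₁ ⊕ V₂ := Sum.map (Sum.elim id id) (Sum.elim id id)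

theorem cp_emb (i : Bool) (x : V₁ ⊕ V₂) : cp (emb i x) = i := by
  cases i <;> cases x <;> rfl

theorem pr_emb (i : Bool) (x : V₁ ⊕ V₂) : pr (emb i x) = x := by
  cases i <;> cases x <;> rfl

theorem emb_surj (z : (V₁ ⊕ V₁) ⊕ (V₂ ⊕ V₂)) : ∃ i x, z = emb i x := by
  refine ⟨cp z, pr z, ?_⟩
  rcases z with (z | z) | (z | z) <;> rfl

theorem emb_side (i : Bool) (x : V₁ ⊕ V₂) : (emb i x).isLeft = x.isLeft := by
  cases x <;> rfl

theorem emb_adj (E : Finset (V₁ × V₂)) (i j : Bool) (x y : V₁ ⊕ V₂) :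
    (graph (dbl E)).Adj (emb i x) (emb j y) ↔ i = j ∧ (graph E).Adj x y := by
  have key : ∀ (i j : Bool) (a : V₁) (b : V₂),
      (graph (dbl E)).Adj (emb i (Sum.inl a)) (emb j (Sum.inr b)) ↔
        i = j ∧ (graph E).Adj (Sum.inl a) (Sum.inr b) := by
    intro i j a b
    rw [graph_adj E]
    refine (graph_adj (dbl E) _ _).trans ?_
    cases i <;> cases j <;> simp [dbl, eL_apply, eR_apply]
  rcases x with x | x <;> rcases y with y | y
  · exact ⟨fun h => (graph_side _ _ _ h rfl).elim, fun h => (graph_side _ _ _ h.2 rfl).elim⟩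
  · exact key i j x y
  · rw [SimpleGraph.adj_comm, key, SimpleGraph.adj_comm, eq_comm]
  · exact ⟨fun h => (graph_side _ _ _ h rfl).elim, fun h => (graph_side _ _ _ h.2 rfl).elim⟩

theorem dbl_fold {E : Finset (V₁ × V₂)} (hE : E.Nonempty) {g : Equiv.Perm (V₁ ⊕ V₂)}
    (hg : IsAut E g) : ∃ σ, IsFold (dbl E) σ ∧ (∀ x, σ (emb true x) = emb false (g x)) ∧
      ∀ x, σ (emb false (g x)) = emb true x := by
  have hg' : IsAut E g⁻¹ := Aut.inv (r := (graph E).Adj) (side := Sum.isLeft) hg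
  let f : (V₁ ⊕ V₁) ⊕ (V₂ ⊕ V₂) → (V₁ ⊕ V₁) ⊕ (V₂ ⊕ V₂) := fun z =>
    emb (!cp z) (if cp z then g (pr z) else g⁻¹ (pr z))
  have f1 : ∀ x, f (emb true x) = emb false (g x) := fun x => by simp [f, cp_emb, pr_emb]
  have f2 : ∀ x, f (emb false x) = emb true (g⁻¹ x) := fun x => by simp [f, cp_emb, pr_emb]
  have inv : Function.Involutive f := by
    intro z
    obtain ⟨i, x, rfl⟩ := emb_surj z
    cases i
    · rw [f2, f1]; simp
    · rw [f1, f2]; simp
  have fc : ∀ z, cp (f z) = !cp z := fun z => cp_emb _ _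
  have h : (⟨inv.toPerm, {z | cp z = true}⟩ : Half _) ∈ FH (dbl E) := by
    refine mem_FH ⟨inv, ?_, ?_, ?_, ?_⟩ ?_ ?_
    · intro z w h
      change (graph (dbl E)).Adj (f z) (f w)
      obtain ⟨i, x, rfl⟩ := emb_surj z
      obtain ⟨j, y, rfl⟩ := emb_surj w
      obtain ⟨rfl, h'⟩ := (emb_adj E _ _ _ _).1 h
      cases i
      · rw [f2, f2, emb_adj]
        exact ⟨rfl, (hg'.2 x y).2 h'⟩
      · rw [f1, f1, emb_adj]
        exact ⟨rfl, (hg.2 x y).2 h'⟩
    · intro z hz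
      change cp z = true at hz
      change ¬ cp (f z) = true
      rw [fc, hz]
      simp
    · intro z _
      change cp z = true ∨ cp (f z) = true
      rw [fc]
      cases cp z <;> simp
    · intro z hz w h
      left
      change cp z = true at hz
      change cp w = true
      obtain ⟨i, x, rfl⟩ := emb_surj z
      obtain ⟨j, y, rfl⟩ := emb_surj w
      obtain ⟨rfl, -⟩ := (emb_adj E _ _ _ _).1 h
      rwa [cp_emb] at hz ⊢
    · intro z
      change (f z).isLeft = z.isLeft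
      obtain ⟨i, x, rfl⟩ := emb_surj z
      cases i
      · rw [f2, emb_side, emb_side, hg'.1]
      · rw [f1, emb_side, emb_side, hg.1]
    · obtain ⟨e, -⟩ := hE
      exact ⟨emb true (Sum.inl e.1), cp_emb _ _⟩
  refine ⟨inv.toPerm, ⟨h.1, _, h.2⟩, f1, fun x => ?_⟩
  change f _ = _
  rw [f2]
  simp

theorem dbl_trans {E : Finset (V₁ × V₂)} (hE : E.Nonempty)
    (ht : ∀ e ∈ E, ∀ f ∈ E, ∃ g, IsAut E g ∧ g (Sum.inl e.1) = Sum.inl f.1 ∧
      g (Sum.inr e.2) = Sum.inr f.2) :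
    EdgeTransitiveUnder (dbl E) (Subgroup.closure {φ | IsFold (dbl E) φ}) := by
  obtain ⟨e0, he0⟩ := id hE
  have base : ∀ e ∈ dbl E, ∃ g ∈ Subgroup.closure {φ | IsFold (dbl E) φ},
      g (emb true (Sum.inl e0.1)) = Sum.inl e.1 ∧ g (emb true (Sum.inr e0.2)) = Sum.inr e.2 := by
    intro e he
    rcases Finset.mem_union.1 he with he | he
    · obtain ⟨f, hf, rfl⟩ := Finset.mem_map.1 he
      obtain ⟨g, hg, h1, h2⟩ := ht e0 he0 f hf
      obtain ⟨σ, s1, s2, -⟩ := dbl_fold hE hg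
      obtain ⟨τ, t1, -, t2⟩ := dbl_fold hE (g := 1) ⟨fun _ => rfl, fun _ _ => Iff.rfl⟩
      refine ⟨τ * σ, Subgroup.mul_mem _ (Subgroup.subset_closure t1) (Subgroup.subset_closure s1),
        ?_, ?_⟩
      · rw [Equiv.Perm.mul_apply, s2, h1]
        exact t2 (Sum.inl f.1)
      · rw [Equiv.Perm.mul_apply, s2, h2]
        exact t2 (Sum.inr f.2)
    · obtain ⟨f, hf, rfl⟩ := Finset.mem_map.1 he
      obtain ⟨g, hg, h1, h2⟩ := ht e0 he0 f hf
      obtain ⟨σ, s1, s2, -⟩ := dbl_fold hE hg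
      refine ⟨σ, Subgroup.subset_closure s1, ?_, ?_⟩
      · rw [s2, h1]; rfl
      · rw [s2, h2]; rfl
  intro e he f hf
  obtain ⟨g, hg, g1, g2⟩ := base e he
  obtain ⟨k, hk, k1, k2⟩ := base f hf
  refine ⟨k * g⁻¹, Subgroup.mul_mem _ hk (Subgroup.inv_mem _ hg), ?_, ?_⟩
  · rw [← g1, ← k1]; simp
  · rw [← g2, ← k2]; simp

end Pool.Agent.P.MP_16ad8c_co.AG
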